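import Pool.Agent.Helper74.NM.St

/-!
# Project NM (MP_26f0da_lc): module SIM, the simulation
-/

set_option autoImplicit false

namespace Pool.Agent.Helper51.NM

open Pool.Agent.Helper74 Pool.Agent.Helper74.NM

theorem nc_mono {G : Type} {R R' : G → G → Prop} (h : ∀ a b, R a b → R' a b) {w : List G}
    (hw : NC R w) : NC R' w := by
  induction hw with
  | nil => exact NC.nil
  | wrap x y u v hxy _ _ ih1 ih2 => exact NC.wrap x y u v (h x y hxy) ih1 ih2

theorem tr_start {W : Type} (rk : W → Bool) (S : W) (w : List (Lt W)) :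
    Tr (P rk) op ([.o (.c (rk S)), .o (.s S)] ++ w) [] [] ↔
      Tr (P rk) op w (cells rk [S]) [] := by
  have e : cells rk [S] = [.o (.s S), .o (.c (rk S))] := by simp [cells]
  rw [e, List.cons_append, List.cons_append, List.nil_append, tr_cons, tr_cons]
  constructor
  · rintro (⟨_, ⟨_, h⟩ | ⟨x, σ', _, hx, _⟩⟩ | ⟨x, σ', _, hx, _⟩)
    · exact h
    · exact absurd hx (not_p_o rk x _)
    · exact absurd hx (not_p_o rk x _)
  · intro h
    exact Or.inl ⟨trivial, Or.inl ⟨trivial, h⟩⟩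

theorem hSIM (hTRN : StTRN) (hDEC : StDEC) (hRUN : StRUN) (hCOM : StCOM) (hALL : StALL) :
    StSIM := by
  intro α W _ rk Pm S hPm
  classical
  have hfin : {p : W × List W | p.2.length ≤ 8}.Finite := by
    refine (Set.finite_univ.prod (List.finite_length_le W 8)).subset ?_
    rintro ⟨X, γ⟩ h
    exact ⟨Set.mem_univ _, h⟩
  have hf : ∀ a, {p : W × List W | Pm a p.1 p.2}.Finite := fun a =>
    hfin.subset fun p hp => (hPm a p.1 p.2 hp).1
  obtain ⟨l, hl, hnd⟩ : ∃ l : α → List (W × List W), (∀ a p, p ∈ l a ↔ Pm a p.1 p.2) ∧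
      ∀ a, (l a).Nodup := by
    refine ⟨fun a => (hf a).toFinset.toList, fun a p => ?_, fun a => Finset.nodup_toList _⟩
    rw [Finset.mem_toList, Set.Finite.mem_toFinset]
    rfl
  have hRc : ∀ a, ∀ g ∈ l a, Rc rk g := fun a g hg => (hPm a g.1 g.2 ((hl a g).1 hg)).2
  have hPl : (fun a X γ => (X, γ) ∈ l a) = Pm := by
    funext a X γ
    exact propext (hl a (X, γ))
  refine ⟨[.o (.c (rk S)), .o (.s S)], fun a => blk rk (l a), by simp, by simp [blk], ?_⟩
  intro w
  have h1 : DR.Acc Pm [S] w ↔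
      Tr (P rk) op ([.o (.c (rk S)), .o (.s S)] ++ w.flatMap fun a => blk rk (l a)) [] [] := by
    rw [tr_start, ← hPl]
    exact ⟨hCOM α W rk l [S] w, hRUN α W rk l hRc w [S]⟩
  rw [h1]
  constructor
  · intro h
    exact nc_mono (fun a b => Or.inl) ((hTRN _ _ _ (p_op rk) _).2 h)
  · intro h
    exact hDEC _ _ _ (p_op rk) _ (fun p y w' e => hALL α W rk l hRc hnd (rk S) S w p y w' e) h

end Pool.Agent.Helper51.NM
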